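import Pool.Agent.W945.Lc.Stm

/-! Deletion of available gates (project LC, part DEL). -/

namespace Pool.Agent.W914.Lc.DEL

open Finset Pool.Agent.W945.Pw Pool.Agent.W945.Lc

theorem av_trans {n : ℕ} {g : ℕ → Fn n} {P Q : ℕ → Prop} {a : Fn n} (ha : Av g P a)
    (h : ∀ j, P j → Av g Q (g j)) : Av g Q a := by
  obtain ⟨c, h1 | ⟨i, h1⟩ | ⟨j, hj, h1⟩⟩ := ha
  · exact ⟨c, Or.inl h1⟩
  · exact ⟨c, Or.inr (Or.inl ⟨i, h1⟩)⟩
  · obtain ⟨d, h2 | ⟨i, h2⟩ | ⟨l, hl, h2⟩⟩ := h j hj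
    · exact ⟨xor d c, Or.inl fun x => by rw [h1, h2]⟩
    · exact ⟨xor d c, Or.inr (Or.inl ⟨i, fun x => by rw [h1, h2, Bool.xor_assoc]⟩)⟩
    · exact ⟨xor d c, Or.inr (Or.inr ⟨l, hl, fun x => by rw [h1, h2, Bool.xor_assoc]⟩)⟩

theorem av_self {n : ℕ} {g : ℕ → Fn n} {Q : ℕ → Prop} (j : ℕ) (hj : Q j) : Av g Q (g j) :=
  ⟨false, Or.inr (Or.inr ⟨j, hj, fun x => by simp⟩)⟩

theorem main : DEL.Stm := by
  intro hB n s g K f hKs hC hK hf
  have key : ∀ j, j < s → Av g (fun l => l ≤ j ∧ l ∉ K) (g j) := by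
    intro j
    induction j using Nat.strong_induction_on with
    | _ j ih =>
      intro hj
      by_cases hjK : j ∈ K
      · refine av_trans (hK j hjK) fun l hl => av_trans (ih l hl (lt_trans hl hj)) fun m hm => ?_
        exact av_self m ⟨le_trans hm.1 (le_of_lt hl), hm.2⟩
      · exact av_self j ⟨le_rfl, hjK⟩
  have hav : ∀ k, k ≤ s → ∀ a : Fn n, Av g (fun j => j < k) a →
      Av g (fun j => j < k ∧ j ∉ K) a := by
    intro k hk a ha
    refine av_trans ha fun l hl => av_trans (key l (lt_of_lt_of_le hl hk)) fun m hm => ?_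
    exact av_self m ⟨lt_of_le_of_lt hm.1 hl, hm.2⟩
  refine hB n s g K f hKs (fun k hk _ => ?_) (hav s le_rfl f hf)
  obtain ⟨a, b, ha, hb, hab⟩ := hC k hk
  exact ⟨a, b, hav k hk.le a ha, hav k hk.le b hb, hab⟩

end Pool.Agent.W914.Lc.DEL
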